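import Pool.Agent.VTP.StmtsT
import Pool.Agent.Helper11_ZOL.MPla

set_option autoImplicit false

namespace Pool.Agent.VTP.H27

open Finset Pool.Agent.ZOL Pool.Agent.ZOL.H11

/-- The other passage. -/
def sb (x : ℕ × Bool) : ℕ × Bool := (x.1, !x.2)

theorem sb_sb (x : ℕ × Bool) : sb (sb x) = x := by simp [sb]

theorem eps_sb (x : ℕ × Bool) : eps (sb x) = -eps x := by
  rcases x with ⟨a, b⟩
  cases b <;> simp [sb, eps]

/-- Labels with alternating sides. -/
def ss : Bool → List ℕ → Shadow
  | _, [] => []
  | s, a :: l => (a, s) :: ss (!s) l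

theorem shadow_seg (ov : ℕ → Bool) (s : Bool) (l : List ℕ) : shadow (seg ov s l) = ss s l := by
  induction l generalizing s with
  | nil => rfl
  | cons a l ih =>
    have := ih (!s)
    simp only [seg, ss, ZOL.shadow, List.map_cons] at this ⊢
    rw [this]

theorem map_fst_ss (s : Bool) (l : List ℕ) : (ss s l).map Prod.fst = l := by
  induction l generalizing s with
  | nil => rfl
  | cons a l ih => simp [ss, ih]

theorem shadow_append (u v : Word) : shadow (u ++ v) = shadow u ++ shadow v := by
  simp [ZOL.shadow]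

theorem shadow_rev_bar (u : Word) : shadow (u.reverse.map bar) = (shadow u).reverse.map sb := by
  simp only [ZOL.shadow, List.map_map, List.map_reverse]
  congr 1

/-- The sum of the signs. -/
def se (v : Shadow) : ℤ := (v.map eps).sum

theorem se_append (u v : Shadow) : se (u ++ v) = se u + se v := by simp [se]

theorem se_cons (x : ℕ × Bool) (v : Shadow) : se (x :: v) = eps x + se v := by simp [se]

theorem se_rev_sb (v : Shadow) : se (v.reverse.map sb) = -se v := by
  induction v with
  | nil => simp [se]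
  | cons x v ih =>
    rw [List.reverse_cons, List.map_append, se_append, ih, se_cons]
    simp [se, eps_sb]

/-- The word with a clasp. -/
def VV (L : Shadow) : Shadow :=
  [(0, false), (1, true)] ++ L ++ [(1, false), (0, true)] ++ L.reverse.map sb

/-- The nested word. -/
def NV (L : Shadow) : Shadow := L ++ L.reverse.map sb

/-- Pairs. -/
def GG (V : Shadow) (a b : ℕ) (x : ℕ × Bool) : ℤ :=
  eps x * (wt a V x * wt b V (sb x) - wt a V (sb x) * wt b V x)

theorem GG_symm (V : Shadow) (a b : ℕ) (x : ℕ × Bool) : GG V b a x = -GG V a b x := by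
  unfold GG; ring

theorem GG_eq (V : Shadow) (a b : ℕ) (x : ℕ × Bool) :
    eps x * wt a V x * wt b V (x.1, !x.2) +
      eps (sb x) * wt a V (sb x) * wt b V ((sb x).1, !(sb x).2) = GG V a b x := by
  have h : ((sb x).1, !(sb x).2) = x := sb_sb x
  rw [h, eps_sb]
  unfold GG
  show eps x * wt a V x * wt b V (sb x) + _ = _
  ring

theorem sum_rev_sb (f : ℕ × Bool → ℤ) (L : Shadow) :
    ((L.reverse.map sb).map f).sum = (L.map (fun x => f (sb x))).sum := by
  rw [List.map_reverse, List.map_reverse, List.sum_reverse, List.map_map]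
  rfl

theorem sum_add (f g : ℕ × Bool → ℤ) (L : Shadow) :
    (L.map f).sum + (L.map g).sum = (L.map (fun x => f x + g x)).sum := by
  induction L with
  | nil => simp
  | cons x L ih =>
    simp only [List.map_cons, List.sum_cons]
    rw [← ih]
    ring

theorem sum_VV (f : ℕ × Bool → ℤ) (L : Shadow) :
    ((VV L).map f).sum = (f (0, false) + f (sb (0, false))) + (f (1, true) + f (sb (1, true))) +
      (L.map (fun x => f x + f (sb x))).sum := by
  rw [← sum_add]
  unfold VV
  simp only [List.map_append, List.sum_append, sum_rev_sb]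
  simp only [List.map_cons, List.map_nil, List.sum_cons, List.sum_nil]
  show _ = (f (0, false) + f (0, true)) + (f (1, true) + f (1, false)) + _
  ring

theorem sum_NV (f : ℕ × Bool → ℤ) (L : Shadow) :
    ((NV L).map f).sum = (L.map (fun x => f x + f (sb x))).sum := by
  rw [← sum_add]
  unfold NV
  simp only [List.map_append, List.sum_append, sum_rev_sb]

theorem mem_rev_sb {x : ℕ × Bool} {L : Shadow} : x ∈ L.reverse.map sb ↔ sb x ∈ L := by
  rw [List.mem_map]
  constructor
  · rintro ⟨y, hy, rfl⟩
    rw [sb_sb]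
    exact List.mem_reverse.1 hy
  · intro h
    exact ⟨sb x, List.mem_reverse.2 h, sb_sb x⟩

/-- weights of an absent label -/
theorem wt_none {a : ℕ} {V : Shadow} (h : ∀ x ∈ V, x.1 ≠ a) {x : ℕ × Bool} (hx : x.1 ≠ a) :
    wt a V x = 0 := by
  unfold wt
  rw [if_neg hx, between_nil h]
  simp

/-- the disjointness of a split list -/
theorem split_facts {P R : Shadow} {t : ℕ × Bool} (h : ((P ++ t :: R).map Prod.fst).Nodup) :
    (∀ x ∈ P, x.1 ≠ t.1) ∧ (∀ x ∈ R, x.1 ≠ t.1) ∧ (∀ x ∈ P, ∀ y ∈ R, x.1 ≠ y.1) := by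
  rw [List.map_append, List.map_cons, List.nodup_append] at h
  obtain ⟨-, h2, h3⟩ := h
  rw [List.nodup_cons] at h2
  refine ⟨?_, ?_, ?_⟩
  · intro x hx
    exact h3 _ (List.mem_map_of_mem hx) _ List.mem_cons_self
  · intro x hx he
    exact h2.1 (he ▸ List.mem_map_of_mem hx)
  · intro x hx y hy
    exact h3 _ (List.mem_map_of_mem hx) _ (List.mem_cons_of_mem _ (List.mem_map_of_mem hy))

theorem sb_not_mem {L : Shadow} (h : (L.map Prod.fst).Nodup) {x : ℕ × Bool} (hx : x ∈ L) :
    sb x ∉ L := by
  intro h2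
  have := List.inj_on_of_nodup_map h hx h2 rfl
  rcases x with ⟨a, b⟩
  simp [sb] at this

section VVs

variable {L : Shadow} (h0 : ∀ x ∈ L, x.1 ≠ 0) (h1 : ∀ x ∈ L, x.1 ≠ 1)
  (hn : (L.map Prod.fst).Nodup)

include h0 in
theorem between0 : between 0 (VV L) = [(1, true)] ++ L ++ [(1, false)] := by
  have : VV L = [] ++ [(0, false)] ++ ([(1, true)] ++ L ++ [(1, false)]) ++ [(0, true)] ++
      L.reverse.map sb := by simp [VV]
  rw [this]
  refine between_split (x := (0, false)) (y := (0, true)) rfl rfl ?_ ?_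
  · simp
  · intro z hz
    simp only [List.mem_append, List.mem_singleton] at hz
    rcases hz with (rfl | h) | rfl
    · simp
    · exact h0 z h
    · simp

include h1 in
theorem between1 : between 1 (VV L) = L := by
  have : VV L = [(0, false)] ++ [(1, true)] ++ L ++ [(1, false)] ++
      ([(0, true)] ++ L.reverse.map sb) := by simp [VV]
  rw [this]
  refine between_split (x := (1, true)) (y := (1, false)) rfl rfl ?_ ?_
  · simp
  · exact h1

include h0 h1 hn in
theorem betweent {P R : Shadow} {t : ℕ × Bool} (hL : L = P ++ t :: R) :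
    between t.1 (VV L) = R ++ [(1, false), (0, true)] ++ R.reverse.map sb := by
  have e : VV L = ([(0, false), (1, true)] ++ P) ++ [t] ++
      (R ++ [(1, false), (0, true)] ++ R.reverse.map sb) ++ [sb t] ++ P.reverse.map sb := by
    rw [hL]; simp [VV]
  have ht0 := h0 t (by rw [hL]; simp)
  have ht1 := h1 t (by rw [hL]; simp)
  obtain ⟨k1, k2, -⟩ := split_facts (hL ▸ hn)
  rw [e]
  refine between_split (x := t) (y := sb t) rfl rfl ?_ ?_
  · intro z hz
    simp only [List.mem_append, List.mem_cons, List.not_mem_nil, or_false] at hz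
    rcases hz with (rfl | rfl) | h
    · exact ht0.symm
    · exact ht1.symm
    · exact k1 z h
  · intro z hz
    simp only [List.mem_append, List.mem_cons, List.not_mem_nil, or_false, mem_rev_sb] at hz
    rcases hz with (h | rfl | rfl) | h
    · exact k2 z h
    · exact ht1.symm
    · exact ht0.symm
    · exact k2 (sb z) h

include h0 h1 hn in
theorem wt0 : (∀ s, wt 0 (VV L) (0, s) = 1) ∧ (∀ s, wt 0 (VV L) (1, s) = 2) ∧
    ∀ x ∈ L, wt 0 (VV L) x = 2 ∧ wt 0 (VV L) (sb x) = 0 := by
  refine ⟨fun s => by simp [wt], ?_, ?_⟩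
  · intro s
    unfold wt
    rw [between0 h0]
    cases s <;> simp
  · intro x hx
    have hx0 := h0 x hx
    have hx1 := h1 x hx
    have hx0' : (sb x).1 ≠ 0 := hx0
    unfold wt
    rw [between0 h0, if_neg hx0, if_neg hx0', if_pos, if_neg]
    · exact ⟨rfl, rfl⟩
    · have hs := sb_not_mem hn hx
      simp only [List.mem_append, List.mem_singleton]
      rintro ((h | h) | h)
      · exact hx1 (congrArg Prod.fst h)
      · exact hs h
      · exact hx1 (congrArg Prod.fst h)
    · simp [hx]

include h0 h1 hn in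
theorem wt1 : (∀ s, wt 1 (VV L) (0, s) = 0) ∧ (∀ s, wt 1 (VV L) (1, s) = 1) ∧
    ∀ x ∈ L, wt 1 (VV L) x = 2 ∧ wt 1 (VV L) (sb x) = 0 := by
  refine ⟨?_, fun s => by simp [wt], ?_⟩
  · intro s
    unfold wt
    rw [between1 h1, if_neg (by simp), if_neg]
    intro h
    exact h0 _ h rfl
  · intro x hx
    have hx1 := h1 x hx
    have hx1' : (sb x).1 ≠ 1 := hx1
    unfold wt
    rw [between1 h1, if_neg hx1, if_neg hx1', if_pos hx, if_neg (sb_not_mem hn hx)]
    exact ⟨rfl, rfl⟩

include h0 h1 hn in
theorem wtt {P R : Shadow} {t : ℕ × Bool} (hL : L = P ++ t :: R) :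
    wt t.1 (VV L) (0, false) = 0 ∧ wt t.1 (VV L) (0, true) = 2 ∧
    wt t.1 (VV L) (1, true) = 0 ∧ wt t.1 (VV L) (1, false) = 2 ∧
    (∀ x ∈ P, wt t.1 (VV L) x = 0 ∧ wt t.1 (VV L) (sb x) = 0) ∧
    (wt t.1 (VV L) t = 1 ∧ wt t.1 (VV L) (sb t) = 1) ∧
    (∀ x ∈ R, wt t.1 (VV L) x = 2 ∧ wt t.1 (VV L) (sb x) = 2) := by
  have hb := betweent h0 h1 hn hL
  have hn' : ((P ++ t :: R).map Prod.fst).Nodup := hL ▸ hn
  obtain ⟨k1, k2, k3⟩ := split_facts hn'
  have ht0 := h0 t (by rw [hL]; simp)
  have ht1 := h1 t (by rw [hL]; simp)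
  have hR0 : ∀ x ∈ R, x.1 ≠ 0 := fun x hx => h0 x (by rw [hL]; simp [hx])
  have hR1 : ∀ x ∈ R, x.1 ≠ 1 := fun x hx => h1 x (by rw [hL]; simp [hx])
  have hP0 : ∀ x ∈ P, x.1 ≠ 0 := fun x hx => h0 x (by rw [hL]; simp [hx])
  have hP1 : ∀ x ∈ P, x.1 ≠ 1 := fun x hx => h1 x (by rw [hL]; simp [hx])
  have mem : ∀ z, z ∈ between t.1 (VV L) ↔ z ∈ R ∨ z = (1, false) ∨ z = (0, true) ∨ sb z ∈ R := by
    intro z
    rw [hb]
    simp only [List.mem_append, List.mem_cons, List.not_mem_nil, or_false, mem_rev_sb]
    tauto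
  have no : ∀ z : ℕ × Bool, z.1 ≠ t.1 → ¬ (z ∈ R ∨ z = (1, false) ∨ z = (0, true) ∨ sb z ∈ R) →
      wt t.1 (VV L) z = 0 := by
    intro z hz h
    unfold wt
    rw [if_neg hz, if_neg (by rw [mem]; exact h)]
  have yes : ∀ z : ℕ × Bool, z.1 ≠ t.1 → (z ∈ R ∨ z = (1, false) ∨ z = (0, true) ∨ sb z ∈ R) →
      wt t.1 (VV L) z = 2 := by
    intro z hz h
    unfold wt
    rw [if_neg hz, if_pos (by rw [mem]; exact h)]
  refine ⟨?_, ?_, ?_, ?_, ?_, ?_, ?_⟩
  · refine no _ ht0.symm ?_
    rintro (h | h | h | h)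
    · exact hR0 _ h rfl
    · simp at h
    · simp at h
    · exact hR0 _ h rfl
  · exact yes _ ht0.symm (by simp)
  · refine no _ ht1.symm ?_
    rintro (h | h | h | h)
    · exact hR1 _ h rfl
    · simp at h
    · simp at h
    · exact hR1 _ h rfl
  · exact yes _ ht1.symm (by simp)
  · intro x hx
    constructor
    · refine no _ (k1 x hx) ?_
      rintro (h | h | h | h)
      · exact k3 x hx _ h rfl
      · exact hP1 x hx (congrArg Prod.fst h)
      · exact hP0 x hx (congrArg Prod.fst h)
      · exact k3 x hx _ h rfl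
    · refine no _ (k1 x hx) ?_
      rintro (h | h | h | h)
      · exact k3 x hx _ h rfl
      · exact hP1 x hx (congrArg Prod.fst h)
      · exact hP0 x hx (congrArg Prod.fst h)
      · exact k3 x hx _ h rfl
  · constructor
    · simp [wt]
    · simp [wt, sb]
  · intro x hx
    constructor
    · exact yes _ (k2 x hx) (Or.inl hx)
    · exact yes _ (k2 x hx) (Or.inr (Or.inr (Or.inr (by rw [sb_sb]; exact hx))))

end VVs

/-! ### alternating signs -/

theorem se_ss (l : List ℕ) (s : Bool) :
    se (ss s l) = if Even l.length then 0 else eps (0, s) := by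
  induction l generalizing s with
  | nil => simp [ss, se]
  | cons a l ih =>
    have h : se (ss s (a :: l)) = eps (a, s) + se (ss (!s) l) := se_cons _ _
    rw [h, ih, List.length_cons]
    by_cases he : Even l.length
    · rw [if_pos he, if_neg (by rw [Nat.even_add_one]; exact fun h => h he)]
      cases s <;> simp [eps]
    · rw [if_neg he, if_pos (by rw [Nat.even_add_one]; exact he)]
      cases s <;> simp [eps]

theorem alt (l : List ℕ) (s : Bool) (P : Shadow) (t : ℕ × Bool) (R : Shadow)
    (h : ss s l = P ++ t :: R) :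
    eps t + 2 * se R = if Even l.length then -eps (0, s) else eps (0, s) := by
  induction l generalizing s P with
  | nil => simp [ss] at h
  | cons a l ih =>
    rw [List.length_cons]
    rcases P with _ | ⟨p, P⟩
    · have h' : (a, s) :: ss (!s) l = t :: R := h
      rw [List.cons.injEq] at h'
      obtain ⟨h1, h2⟩ := h'
      rw [← h1, ← h2, se_ss]
      by_cases he : Even l.length
      · rw [if_pos he, if_neg (by rw [Nat.even_add_one]; exact fun h => h he)]
        cases s <;> simp [eps]
      · rw [if_neg he, if_pos (by rw [Nat.even_add_one]; exact he)]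
        cases s <;> simp [eps]
    · have h' : (a, s) :: ss (!s) l = p :: (P ++ t :: R) := h
      rw [List.cons.injEq] at h'
      rw [ih (!s) P h'.2]
      by_cases he : Even l.length
      · rw [if_pos he, if_neg (by rw [Nat.even_add_one]; exact fun h => h he)]
        cases s <;> simp [eps]
      · rw [if_neg he, if_pos (by rw [Nat.even_add_one]; exact he)]
        cases s <;> simp [eps]

/-! ### planarity -/

theorem se_append3 (a b c : Shadow) : se (a ++ b ++ c) = se a + se b + se c := by
  rw [se_append, se_append]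

theorem total (L : Shadow) (a b : ℕ) :
    ((VV L).map (fun x => eps x * wt a (VV L) x * wt b (VV L) (x.1, !x.2))).sum =
      GG (VV L) a b (0, false) + GG (VV L) a b (1, true) + (L.map (GG (VV L) a b)).sum := by
  rw [sum_VV]
  have k0 := GG_eq (VV L) a b (0, false)
  have k1 := GG_eq (VV L) a b (1, true)
  have k2 : (L.map (fun x => (fun x => eps x * wt a (VV L) x * wt b (VV L) (x.1, !x.2)) x +
      (fun x => eps x * wt a (VV L) x * wt b (VV L) (x.1, !x.2)) (sb x))).sum =
      (L.map (GG (VV L) a b)).sum :=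
    congrArg List.sum (List.map_congr_left (fun x _ => GG_eq (VV L) a b x))
  rw [← k0, ← k1, ← k2]

theorem sumGG_zero {V L : Shadow} {a b : ℕ}
    (h : ∀ x ∈ L, GG V a b x = 0) : (L.map (GG V a b)).sum = 0 := by
  apply List.sum_eq_zero
  intro y hy
  obtain ⟨x, hx, rfl⟩ := List.mem_map.1 hy
  exact h x hx

theorem sum_symm (V L : Shadow) (a b : ℕ) :
    (L.map (GG V b a)).sum = -(L.map (GG V a b)).sum := by
  induction L with
  | nil => simp
  | cons x L ih =>
    rw [List.map_cons, List.map_cons, List.sum_cons, List.sum_cons, ih, GG_symm]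
    ring

theorem sum_se (c : ℤ) (f : ℕ × Bool → ℤ) (R : Shadow)
    (h : ∀ x ∈ R, f x = eps x * c) : (R.map f).sum = c * se R := by
  induction R with
  | nil => simp [se]
  | cons x R ih =>
    rw [List.map_cons, List.sum_cons, se_cons, ih (fun y hy => h y (List.mem_cons_of_mem _ hy)),
      h x List.mem_cons_self]
    ring

theorem planar_VV {L : Shadow} (h0 : ∀ x ∈ L, x.1 ≠ 0) (h1 : ∀ x ∈ L, x.1 ≠ 1)
    (hn : (L.map Prod.fst).Nodup) (hs : se L = 0)
    (ha : ∀ P t R, L = P ++ t :: R → eps t + 2 * se R = -1) : Planar (VV L) := by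
  have memVV : ∀ x ∈ VV L, x = (0, false) ∨ x = (0, true) ∨ x = (1, true) ∨ x = (1, false) ∨
      x ∈ L ∨ sb x ∈ L := by
    intro x hx
    simp only [VV, List.mem_append, List.mem_cons, List.not_mem_nil, or_false, mem_rev_sb] at hx
    tauto
  have lab : ∀ a : ℕ, a = 0 ∨ a = 1 ∨ (∃ P t R, L = P ++ t :: R ∧ t.1 = a) ∨
      (∀ x ∈ VV L, x.1 ≠ a) := by
    intro a
    by_cases a0 : a = 0
    · exact Or.inl a0
    by_cases a1 : a = 1
    · exact Or.inr (Or.inl a1)
    by_cases ht : ∃ t ∈ L, t.1 = a
    · obtain ⟨t, ht, hta⟩ := ht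
      obtain ⟨P, R, hPR⟩ := List.append_of_mem ht
      exact Or.inr (Or.inr (Or.inl ⟨P, t, R, hPR, hta⟩))
    · refine Or.inr (Or.inr (Or.inr ?_))
      intro x hx he
      rcases memVV x hx with rfl | rfl | rfl | rfl | h | h
      · exact a0 he.symm
      · exact a0 he.symm
      · exact a1 he.symm
      · exact a1 he.symm
      · exact ht ⟨x, h, he⟩
      · exact ht ⟨sb x, h, he⟩
  constructor
  · intro a
    show se (between a (VV L)) = 0
    rcases lab a with rfl | rfl | ⟨P, t, R, hL, rfl⟩ | h
    · rw [between0 h0, se_append3, hs]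
      simp [se, eps]
    · rw [between1 h1, hs]
    · rw [betweent h0 h1 hn hL, se_append3, se_rev_sb]
      have : se [(1, false), (0, true)] = 0 := by simp [se, eps]
      rw [this]
      ring
    · rw [between_nil h]
      rfl
  · intro a b
    rw [total]
    obtain ⟨p1, p2, p3⟩ := wt0 h0 h1 hn
    obtain ⟨q1, q2, q3⟩ := wt1 h0 h1 hn
    have e0 : sb (0, false) = (0, true) := rfl
    have e1 : sb (1, true) = (1, false) := rfl
    have x0 : eps (0, false) = -1 := rfl
    have x1 : eps (1, true) = 1 := rfl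
    -- the total of a pair
    have anti : ∀ a b, (GG (VV L) a b (0, false) + GG (VV L) a b (1, true) +
        (L.map (GG (VV L) a b)).sum = 0) → (GG (VV L) b a (0, false) + GG (VV L) b a (1, true) +
        (L.map (GG (VV L) b a)).sum = 0) := by
      intro a b h
      rw [sum_symm, GG_symm _ a b, GG_symm _ a b]
      linarith
    have diag : ∀ a, GG (VV L) a a (0, false) + GG (VV L) a a (1, true) +
        (L.map (GG (VV L) a a)).sum = 0 := by
      intro a
      have h : ∀ x, GG (VV L) a a x = 0 := by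
        intro x; unfold GG; ring
      rw [h, h, sumGG_zero (fun x _ => h x)]
      simp
    have c01 : GG (VV L) 0 1 (0, false) + GG (VV L) 0 1 (1, true) +
        (L.map (GG (VV L) 0 1)).sum = 0 := by
      rw [sumGG_zero]
      · unfold GG
        rw [e0, e1, p1, p1, p2, p2, q1, q1, q2, q2]
        ring
      · intro x hx
        unfold GG
        rw [(p3 x hx).1, (p3 x hx).2, (q3 x hx).1, (q3 x hx).2]
        ring
    have split : ∀ (c : ℕ) (P R : Shadow) (t : ℕ × Bool), L = P ++ t :: R →
        (∀ x ∈ L, wt c (VV L) x = 2 ∧ wt c (VV L) (sb x) = 0) →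
        (L.map (GG (VV L) c t.1)).sum = -2 := by
      intro c P R t hL hc
      obtain ⟨-, -, -, -, r5, r6, r7⟩ := wtt h0 h1 hn hL
      have hval := ha P t R hL
      have e : ∀ M : Shadow, M = L → (M.map (GG (VV L) c t.1)).sum = -2 := by
        intro M hM
        rw [hM.trans hL, List.map_append, List.map_cons, List.sum_append, List.sum_cons]
        have s1 : (P.map (GG (VV L) c t.1)).sum = 0 := by
          apply sumGG_zero
          intro x hx
          unfold GG
          rw [(r5 x hx).1, (r5 x hx).2]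
          ring
        have s2 : GG (VV L) c t.1 t = 2 * eps t := by
          have := hc t (by rw [hL]; simp)
          unfold GG
          rw [this.1, this.2, r6.2]
          ring
        have s3 : (R.map (GG (VV L) c t.1)).sum = 4 * se R := by
          apply sum_se
          intro x hx
          have := hc x (by rw [hL]; simp [hx])
          unfold GG
          rw [this.1, this.2, (r7 x hx).2]
          ring
        rw [s1, s2, s3]
        linarith
      exact e L rfl
    have c0t : ∀ (P R : Shadow) (t : ℕ × Bool), L = P ++ t :: R →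
        GG (VV L) 0 t.1 (0, false) + GG (VV L) 0 t.1 (1, true) +
        (L.map (GG (VV L) 0 t.1)).sum = 0 := by
      intro P R t hL
      obtain ⟨r1, r2, r3, r4, -, -, -⟩ := wtt h0 h1 hn hL
      rw [split 0 P R t hL p3]
      unfold GG
      rw [e0, e1, x0, x1, p1, p1, p2, p2, r1, r2, r3, r4]
      ring
    have c1t : ∀ (P R : Shadow) (t : ℕ × Bool), L = P ++ t :: R →
        GG (VV L) 1 t.1 (0, false) + GG (VV L) 1 t.1 (1, true) +
        (L.map (GG (VV L) 1 t.1)).sum = 0 := by
      intro P R t hL
      obtain ⟨r1, r2, r3, r4, -, -, -⟩ := wtt h0 h1 hn hL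
      rw [split 1 P R t hL q3]
      unfold GG
      rw [e0, e1, x0, x1, q1, q1, q2, q2, r1, r2, r3, r4]
      ring
    have weq : ∀ (P R : Shadow) (t : ℕ × Bool), L = P ++ t :: R →
        ∀ x ∈ L, wt t.1 (VV L) x = wt t.1 (VV L) (sb x) := by
      intro P R t hL x hx
      obtain ⟨-, -, -, -, r5, r6, r7⟩ := wtt h0 h1 hn hL
      have hx' : x ∈ P ++ t :: R := hL ▸ hx
      rcases List.mem_append.1 hx' with h | h
      · rw [(r5 x h).1, (r5 x h).2]
      · rcases List.mem_cons.1 h with rfl | h
        · rw [r6.1, r6.2]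
        · rw [(r7 x h).1, (r7 x h).2]
    have ctt : ∀ (P R : Shadow) (t : ℕ × Bool) (P' R' : Shadow) (t' : ℕ × Bool),
        L = P ++ t :: R → L = P' ++ t' :: R' →
        GG (VV L) t.1 t'.1 (0, false) + GG (VV L) t.1 t'.1 (1, true) +
        (L.map (GG (VV L) t.1 t'.1)).sum = 0 := by
      intro P R t P' R' t' hL hL'
      obtain ⟨r1, r2, r3, r4, -, -, -⟩ := wtt h0 h1 hn hL
      obtain ⟨s1, s2, s3, s4, -, -, -⟩ := wtt h0 h1 hn hL'
      rw [sumGG_zero]
      · unfold GG
        rw [e0, e1, r1, r2, r3, r4, s1, s2, s3, s4]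
        ring
      · intro x hx
        unfold GG
        rw [weq P R t hL x hx, weq P' R' t' hL' x hx]
        ring
    have cabs : ∀ a b, (∀ x ∈ VV L, x.1 ≠ a) →
        GG (VV L) a b (0, false) + GG (VV L) a b (1, true) +
        (L.map (GG (VV L) a b)).sum = 0 := by
      intro a b h
      have z : ∀ x : ℕ × Bool, x ∈ VV L → GG (VV L) a b x = 0 := by
        intro x hx
        have k := h x hx
        unfold GG
        rw [wt_none h k, wt_none h (x := sb x) k]
        ring
      rw [z (0, false) (by simp [VV]), z (1, true) (by simp [VV]), sumGG_zero]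
      · simp
      · intro x hx
        exact z x (by simp [VV, hx])
    rcases lab a with rfl | rfl | ⟨P, t, R, hL, rfl⟩ | h
    · rcases lab b with rfl | rfl | ⟨P', t', R', hL', rfl⟩ | h'
      · exact diag 0
      · exact c01
      · exact c0t P' R' t' hL'
      · exact anti _ _ (cabs _ _ h')
    · rcases lab b with rfl | rfl | ⟨P', t', R', hL', rfl⟩ | h'
      · exact anti _ _ c01
      · exact diag 1
      · exact c1t P' R' t' hL'
      · exact anti _ _ (cabs _ _ h')
    · rcases lab b with rfl | rfl | ⟨P', t', R', hL', rfl⟩ | h'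
      · exact anti _ _ (c0t P R t hL)
      · exact anti _ _ (c1t P R t hL)
      · exact ctt P R t P' R' t' hL hL'
      · exact anti _ _ (cabs _ _ h')
    · exact cabs _ _ h

theorem planar_NV {L : Shadow} (hn : (L.map Prod.fst).Nodup) : Planar (NV L) := by
  have memNV : ∀ x ∈ NV L, x ∈ L ∨ sb x ∈ L := by
    intro x hx
    simp only [NV, List.mem_append, mem_rev_sb] at hx
    exact hx
  have lab : ∀ a : ℕ, (∃ P t R, L = P ++ t :: R ∧ t.1 = a) ∨ (∀ x ∈ NV L, x.1 ≠ a) := by
    intro a
    by_cases ht : ∃ t ∈ L, t.1 = a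
    · obtain ⟨t, ht, hta⟩ := ht
      obtain ⟨P, R, hPR⟩ := List.append_of_mem ht
      exact Or.inl ⟨P, t, R, hPR, hta⟩
    · refine Or.inr ?_
      intro x hx he
      rcases memNV x hx with h | h
      · exact ht ⟨x, h, he⟩
      · exact ht ⟨sb x, h, he⟩
  have bet : ∀ (P R : Shadow) (t : ℕ × Bool), L = P ++ t :: R →
      between t.1 (NV L) = R ++ R.reverse.map sb := by
    intro P R t hL
    have e : NV L = P ++ [t] ++ (R ++ R.reverse.map sb) ++ [sb t] ++ P.reverse.map sb := by
      rw [hL]; simp [NV]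
    obtain ⟨k1, k2, -⟩ := split_facts (hL ▸ hn)
    rw [e]
    refine between_split (x := t) (y := sb t) rfl rfl k1 ?_
    intro z hz
    simp only [List.mem_append, mem_rev_sb] at hz
    rcases hz with h | h
    · exact k2 z h
    · exact k2 (sb z) h
  have weq : ∀ (a : ℕ) (x : ℕ × Bool), x ∈ L → wt a (NV L) x = wt a (NV L) (sb x) := by
    intro a x hx
    by_cases hxa : x.1 = a
    · unfold wt
      rw [if_pos hxa, if_pos (show (sb x).1 = a from hxa)]
    rcases lab a with ⟨P, t, R, hL, rfl⟩ | h
    · unfold wt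
      rw [if_neg hxa, if_neg (show (sb x).1 ≠ t.1 from hxa), bet P R t hL]
      have : x ∈ R ++ R.reverse.map sb ↔ sb x ∈ R ++ R.reverse.map sb := by
        simp only [List.mem_append, mem_rev_sb, sb_sb]
        tauto
      by_cases hm : x ∈ R ++ R.reverse.map sb
      · rw [if_pos hm, if_pos (this.1 hm)]
      · rw [if_neg hm, if_neg (fun h => hm (this.2 h))]
    · rw [wt_none h hxa, wt_none h (x := sb x) hxa]
  constructor
  · intro a
    show se (between a (NV L)) = 0
    rcases lab a with ⟨P, t, R, hL, rfl⟩ | h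
    · rw [bet P R t hL, se_append, se_rev_sb]
      ring
    · rw [between_nil h]
      rfl
  · intro a b
    rw [sum_NV]
    simp only [GG_eq]
    apply sumGG_zero
    intro x hx
    unfold GG
    rw [weq a x hx, weq b x hx]
    ring

theorem shadow_tg (ls : List ℕ) (ov : ℕ → Bool) : ZOL.shadow (tg ls ov) = VV (ss true ls) := by
  unfold tg VV
  rw [shadow_append, shadow_append, shadow_append, shadow_rev_bar, shadow_seg]
  rfl

theorem shadow_nest (ls : List ℕ) (ov : ℕ → Bool) (s : Bool) :
    ZOL.shadow (seg ov s ls ++ (seg ov s ls).reverse.map bar) = NV (ss s ls) := by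
  unfold NV
  rw [shadow_append, shadow_rev_bar, shadow_seg]

theorem tpg : TpgStmt := by
  constructor
  · intro ls ov hn h0 h1 he
    rw [shadow_tg]
    have key : ∀ x ∈ ss true ls, x.1 ∈ ls := by
      intro x hx
      rw [← map_fst_ss true ls]
      exact List.mem_map_of_mem hx
    apply planar_VV
    · intro x hx h
      exact h0 (h ▸ key x hx)
    · intro x hx h
      exact h1 (h ▸ key x hx)
    · rw [map_fst_ss]
      exact hn
    · rw [se_ss, if_pos he]
    · intro P t R h
      rw [alt ls true P t R h, if_pos he]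
      rfl
  · intro ls ov s hn
    rw [shadow_nest]
    apply planar_NV
    rw [map_fst_ss]
    exact hn

end Pool.Agent.VTP.H27
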